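import Mathlib

/-!
Statements (abstract part) for the bound on the exceptional twists `r ≡ 1 mod p - 1` in Schneider's
conjecture. Everything here only uses Mathlib.
-/

open NumberField IsDedekindDomain Polynomial

namespace Pool.Agent.Work.MP_59f3ad_nt.Tw

universe u

/-- Elements of `1 + p^μ ℤ_p` are approximated by powers of an element of exact level `μ`. -/
def StPow : Prop := ∀ (p : ℕ) [Fact p.Prime], p ≠ 2 → ∀ μ : ℕ, 1 ≤ μ → ∀ a b : ℤ_[p],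
  (p : ℤ_[p]) ^ μ ∣ a - 1 → (p : ℤ_[p]) ^ μ ∣ b - 1 → ¬ (p : ℤ_[p]) ^ (μ + 1) ∣ b - 1 →
  ∀ M : ℕ, ∃ z : ℕ, (p : ℤ_[p]) ^ M ∣ a - b ^ z

/-- `1 + p ℤ_p` is torsion free. -/
def StTf : Prop := ∀ (p : ℕ) [Fact p.Prime], p ≠ 2 → ∀ μ : ℕ, 1 ≤ μ → ∀ b : ℤ_[p],
  (p : ℤ_[p]) ^ μ ∣ b - 1 → ¬ (p : ℤ_[p]) ^ (μ + 1) ∣ b - 1 →
  ∀ s : ℕ, s ≠ 0 → b ^ s ≠ 1

/-- Divisibility of `u ^ s - 1` for `p - 1 ∣ s`. -/
def StEps : Prop := ∀ (p : ℕ) [Fact p.Prime] (u : ℤ_[p]ˣ) (s : ℤ), ((p : ℤ) - 1) ∣ s → s ≠ 0 →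
  (p : ℤ_[p]) ^ (1 + padicValInt p s) ∣ ((u ^ s : ℤ_[p]ˣ) : ℤ_[p]) - 1

/-- Elementary facts on integral powers of units. -/
def StZp : Prop := ∀ (p : ℕ) [Fact p.Prime] (u v : ℤ_[p]ˣ) (r : ℤ),
  ((u : ℤ_[p]) - 1 ∣ ((u ^ r : ℤ_[p]ˣ) : ℤ_[p]) - 1) ∧
  (∀ M : ℕ, (p : ℤ_[p]) ^ M ∣ (u : ℤ_[p]) - (v : ℤ_[p]) →
    (p : ℤ_[p]) ^ M ∣ ((u ^ r : ℤ_[p]ˣ) : ℤ_[p]) - ((v ^ r : ℤ_[p]ˣ) : ℤ_[p])) ∧
  (((p : ℤ) - 1) ∣ r - 1 → (p : ℤ_[p]) ∣ ((u ^ r : ℤ_[p]ˣ) : ℤ_[p]) - (u : ℤ_[p]))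

/-- Compactness: `ℤ_p`-independent functions are independent modulo `p^m` up to a constant. -/
def StCpt : Prop := ∀ (p : ℕ) [Fact p.Prime] (G : Type u) (k : ℕ) (c : Fin k → G → ℤ_[p]),
  (∀ a : Fin k → ℤ_[p], (∀ g, ∑ i, a i * c i g = 0) → a = 0) →
  ∃ M0 : ℕ, ∀ (m : ℕ) (b : Fin k → ℤ_[p]), (∀ g, (p : ℤ_[p]) ^ m ∣ ∑ i, b i * c i g) →
    ∀ i, (p : ℤ_[p]) ^ (m - M0) ∣ b i

/-- Counting in `(ℤ/p^m)^k`. -/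
def StLat : Prop := ∀ (p m k : ℕ) [Fact p.Prime] (e : Fin k → ℕ), (∀ i, e i ≤ m) →
  ∀ ε : Fin k → ZMod (p ^ m), (∀ i, (p : ZMod (p ^ m)) ^ (e i) ∣ ε i) →
  ∀ B0 : AddSubgroup (Fin k → ZMod (p ^ m)), (∀ b ∈ B0, (fun i => ε i * b i) ∈ B0) →
  (∀ b ∈ B0, ∃ x : Fin k → ZMod (p ^ m), (fun i => ε i * x i) = b) →
  ∃ T : Finset (Fin k → ZMod (p ^ m)), (∀ b ∈ T, (fun i => ε i * b i) ∈ B0) ∧
    (∀ b ∈ T, ∀ b' ∈ T, b - b' ∈ B0 → b = b') ∧ p ^ (∑ i, e i) ≤ T.card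

/-- A cocycle modulo `p^m` which is a combination of coboundaries of other twists, on a monoid
(a decomposition group), is a coboundary modulo `p^m`. -/
def StLoc : Prop := ∀ (p : ℕ) [Fact p.Prime], p ≠ 2 → ∀ (G : Type u) [Monoid G] (χ : G →* ℤ_[p]ˣ)
  (k m : ℕ) (r : Fin k → ℤ) (b y : Fin k → ℤ_[p]) (F : G → ℤ_[p]),
  (∀ h, F h = ∑ i, b i * ((((χ h) ^ (r i) : ℤ_[p]ˣ) : ℤ_[p]) - 1) * y i) →
  (∀ g h, (p : ℤ_[p]) ^ m ∣ F (g * h) - (F g + (χ g : ℤ_[p]) * F h)) →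
  ∃ t : ℤ_[p], ∀ h, (p : ℤ_[p]) ^ m ∣ F h - ((χ h : ℤ_[p]) - 1) * t

/-- Independence of distinct characters, applied to a sum of cocycles. -/
def StChi : Prop := ∀ (p : ℕ) [Fact p.Prime] (G : Type u) [Group G] (χ : G →* ℤ_[p]ˣ),
  (∀ ρ ρ' : ℤ, (∀ g, (χ g) ^ ρ = (χ g) ^ ρ') → ρ = ρ') →
  ∀ (k : ℕ) (r : Fin k → ℤ) (c : Fin k → G → ℤ_[p]),
  (∀ i g h, c i (g * h) = c i g + (((χ g) ^ (r i) : ℤ_[p]ˣ) : ℤ_[p]) * c i h) →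
  ∀ a : Fin k → ℤ_[p], (∀ g, ∑ i, a i * c i g = 0) →
  ∀ (ρ : ℤ) (g : G), ∑ i with r i = ρ, a i * c i g = 0

/-- Few integers of bounded height are very good approximations of the zeros of a `p`-adically
convergent sequence of polynomials. -/
def StZer : Prop := ∀ (p : ℕ), p.Prime → ∀ (D : ℕ → ℤ[X]),
  (∀ N k, (p : ℤ) ^ (N + 1) ∣ (D (N + 1) - D N).coeff k) → ∀ e B : ℕ,
  (∃ k, ¬ (p : ℤ) ^ (e + 1) ∣ (D e).coeff k) →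
  (∀ k, B < k → (p : ℤ) ^ (e + 1) ∣ (D e).coeff k) → ∀ Y : ℕ,
  ∃ Z : Set ℤ, Z.Finite ∧ Z.ncard ≤ B ∧ ∀ t : ℤ, |t| ≤ Y → t ∉ Z →
    ¬ (p : ℤ) ^ (e + B * Nat.log p (2 * Y) + 1) ∣ (D (e + B * Nat.log p (2 * Y))).eval t

/-- Density of the exceptional set, for sets depending on the height. -/
def StDen : Prop := ∀ (m C : ℕ), ∃ C' : ℕ, ∀ Bad : ℕ → ℕ → Set (Fin (m + 1) → ℤ),
  (∀ p : ℕ, p.Prime → ∀ H : ℕ, 1 ≤ H →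
    {t : Fin (m + 1) → ℤ | (∀ i, |t i| ≤ H) ∧ t ∈ Bad H p}.ncard ≤ C * p * H ^ m) →
  ∀ H : ℕ, 2 ≤ H →
    ({t : Fin (m + 1) → ℤ | (∀ i, |t i| ≤ H) ∧ ∃ p : ℕ, p.Prime ∧ p ^ 2 ≤ H ∧
      t ∈ Bad H p}.ncard : ℝ) ≤ C' * (H : ℝ) ^ (m + 1) / Real.log H

/-- Elements all of whose valuations are `q`-th powers, modulo units and `q`-th powers. -/
def StCl : Prop := ∀ (K : Type u) [Field K] [NumberField K] (q : ℕ), q ≠ 0 →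
  ∃ cl : K → ClassGroup (𝓞 K), ∀ α α' : K, α ≠ 0 → α' ≠ 0 →
    (∀ w : HeightOneSpectrum (𝓞 K), ∃ y : K, w.valuation K α = w.valuation K y ^ q) →
    (∀ w : HeightOneSpectrum (𝓞 K), ∃ y : K, w.valuation K α' = w.valuation K y ^ q) →
    cl α = cl α' →
    ∃ (u : (𝓞 K)ˣ) (γ : K), γ ≠ 0 ∧ α = ((u : 𝓞 K) : K) * γ ^ q * α'

/-- Units modulo `p^c`-th powers. -/
def StUn : Prop := ∀ (K : Type u) [Field K] [NumberField K] (p : ℕ), p.Prime →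
  (∀ ζ : K, ζ ^ p = 1 → ζ = 1) → ∀ c m : ℕ, c ≤ m →
  ∃ e : (𝓞 K)ˣ → (Fin (Units.rank K) → ZMod (p ^ c)), ∀ w w' : (𝓞 K)ˣ, e w = e w' →
    ∃ w1 : (𝓞 K)ˣ, w ^ p ^ (m - c) = w1 ^ p ^ m * w' ^ p ^ (m - c)

/-- A polynomial bound for the class number in terms of the discriminant. -/
def StHcl : Prop := ∀ d : ℕ, ∃ C : ℕ, ∀ (K : Type u) [Field K] [NumberField K],
  Module.finrank ℚ K = d → classNumber K ≤ C * (discr K).natAbs ^ C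

/-- Effective form of the index constant: the coefficients of an element of `ℤ[x]` divisible by
`p^k` in `𝓞 K` are divisible by `p^(k - c1)`. -/
def IdxC (K : Type*) [Field K] [NumberField K] (x : 𝓞 K) (d p c1 : ℕ) : Prop :=
  ∀ k, ∀ c : ℕ → ℤ, (p : 𝓞 K) ^ k ∣ ∑ i ∈ Finset.range d, (c i : 𝓞 K) * x ^ i →
    ∀ i < d, (p : ℤ) ^ (k - c1) ∣ c i

/-- Bounds for the index and the discriminant in terms of the size of a generator. -/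
def StIdx : Prop := ∀ (K : Type u) [Field K] [NumberField K] (d : ℕ) (x : 𝓞 K),
  LinearIndependent ℤ (fun i : Fin d => x ^ (i : ℕ)) → d = Module.finrank ℚ K →
  ∀ R : ℝ, 1 ≤ R → (∀ σ : K →+* ℂ, ‖σ (x : K)‖ ≤ R) →
  |((discr K : ℤ) : ℝ)| ≤ (d.factorial * R ^ (d * d)) ^ 2 ∧
  ∀ p : ℕ, p.Prime → ∃ c1 : ℕ, IdxC K x d p c1 ∧ (p : ℝ) ^ c1 ≤ d.factorial * R ^ (d * d)

/-- Roots of the specialisations of a family are bounded by a power of the height. -/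
def StRoot : Prop := ∀ (m : ℕ) (F : (MvPolynomial (Fin (m + 1)) ℤ)[X]), F.Monic →
  ∃ C : ℕ, ∀ (H : ℕ), 1 ≤ H → ∀ t : Fin (m + 1) → ℤ, (∀ i, |t i| ≤ H) →
    ∀ z : ℂ, ((F.map (MvPolynomial.eval t)).map (Int.castRingHom ℂ)).eval z = 0 →
      ‖z‖ ≤ C * (H : ℝ) ^ C

/-- `u` is a local `p^m`-th power at all places above `p`. -/
def LocPow (K : Type u) [Field K] [NumberField K] (p m : ℕ) (a : K) : Prop :=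
  ∀ v : HeightOneSpectrum (𝓞 K), (p : 𝓞 K) ∈ v.asIdeal →
    ∃ η : v.adicCompletion K, η ^ (p ^ m) = algebraMap K (v.adicCompletion K) a

/-- Leopoldt property with constant `c`: units which are local `p^m`-th powers above `p` are
`p^(m-c)`-th powers of units. -/
def LLeo (K : Type u) [Field K] [NumberField K] (p c : ℕ) : Prop :=
  ∀ (m : ℕ) (u : (𝓞 K)ˣ), LocPow K p m ((u : 𝓞 K) : K) → ∃ w : (𝓞 K)ˣ, u = w ^ p ^ (m - c)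

/-- Explicit form of `exists_local_exponent`. -/
def StTex : Prop := ∀ (K : Type u) [Field K] [NumberField K] (p : ℕ), p.Prime →
  ∃ T j : ℕ, T ≠ 0 ∧ ¬ p ^ (j + 1) ∣ T ∧ p ^ j ≤ p * Module.finrank ℚ K ∧
    ∀ (n : ℕ) (u : (𝓞 K)ˣ), LocPow K p n ((u : 𝓞 K) : K) →
      (p : 𝓞 K) ^ (n + 1) ∣ (u : 𝓞 K) ^ T - 1

end Pool.Agent.Work.MP_59f3ad_nt.Tw
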