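import Mathlib
import Pool.Agent.Work.MP_59f3ad_nt.Bd.B01
import Pool.Agent.Work.MP_59f3ad_nt.Tw.Stmts

/-!
Statements (Galois cohomological part) for the bound on the exceptional twists `r ≡ 1 mod p - 1`
in Schneider's conjecture.
-/

open NumberField IsDedekindDomain

namespace Pool.Agent.Work.MP_59f3ad_nt.Tw

universe u

/-- `F` behaves modulo `p^m` like a locally trivial cocycle of `G_{K,S}` with values in `ℤ_p(1)`. -/
def KF (K : Type u) [Field K] [NumberField K] (p : ℕ) [Fact p.Prime] (m : ℕ)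
    (S : Set (HeightOneSpectrum (𝓞 K))) (F : GK K → ℤ_[p]) : Prop :=
  Continuous F ∧
  (∀ g h, (p : ℤ_[p]) ^ m ∣ F (g * h) - (F g + (cyc K p g : ℤ_[p]) * F h)) ∧
  (∀ g ∈ (maxUnram K S).fixingSubgroup, (p : ℤ_[p]) ^ m ∣ F g) ∧
  ∀ v ∈ S, ∀ ι : AlgebraicClosure K →ₐ[K] AlgebraicClosure (v.adicCompletion K),
    ∃ t : ℤ_[p], ∀ (g : GK (v.adicCompletion K)) (h : GK K), (∀ x, ι (h x) = g (ι x)) →
      (p : ℤ_[p]) ^ m ∣ F h - ((cyc K p h : ℤ_[p]) - 1) * t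

/-- Independence of a family of cocycles for various twists. -/
def Indep (K : Type u) [Field K] [NumberField K] (p : ℕ) [Fact p.Prime] {k : ℕ} (r : Fin k → ℤ)
    (φ : Fin k → GK K → ℤ_[p]) : Prop :=
  ∀ a : Fin k → ℤ_[p], (∀ ρ : ℤ, (fun g => ∑ i with r i = ρ, a i * φ i g) ∈ B1 K p ρ) → a = 0

/-- The cyclotomic character is nontrivial modulo `p`. -/
def StSig : Prop := ∀ (K : Type u) [Field K] [NumberField K] (p : ℕ) [Fact p.Prime],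
  (∀ ζ : K, ζ ^ p = 1 → ζ = 1) → ∃ σ : GK K, IsUnit ((cyc K p σ : ℤ_[p]) - 1)

/-- An element whose cyclotomic character has minimal level. -/
def StGam : Prop := ∀ (K : Type u) [Field K] [NumberField K] (p : ℕ) [Fact p.Prime],
  ∃ (ν : ℕ) (γ : GK K), 1 ≤ ν ∧ ¬ (p : ℤ_[p]) ^ (ν + 1) ∣ (cyc K p γ : ℤ_[p]) ^ (p - 1) - 1 ∧
    ∀ g : GK K, (p : ℤ_[p]) ^ ν ∣ (cyc K p g : ℤ_[p]) ^ (p - 1) - 1

/-- `L_S` is normal over `L`. -/
def StNrm : Prop := ∀ (L : Type u) [Field L] [NumberField L] (S : Set (HeightOneSpectrum (𝓞 L))),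
  ∀ g ∈ (maxUnram L S).fixingSubgroup, ∀ h : GK L, h⁻¹ * g * h ∈ (maxUnram L S).fixingSubgroup

/-- Kummer theory modulo `p^m`. -/
def StKum : Prop := ∀ (K : Type u) [Field K] [NumberField K] (p : ℕ) [Fact p.Prime] (m : ℕ)
  (S : Set (HeightOneSpectrum (𝓞 K))) (F : GK K → ℤ_[p]) (ζ : AlgebraicClosure K),
  IsPrimitiveRoot ζ (p ^ m) → KF K p m S F →
  ∃ (β : AlgebraicClosure K) (α : K), β ≠ 0 ∧ α ≠ 0 ∧ (∀ g : GK K, g β = zpw p m ζ (F g) * β) ∧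
    algebraMap K (AlgebraicClosure K) α = β ^ p ^ m ∧
    (∀ v ∈ S, ∃ η : v.adicCompletion K, η ^ p ^ m = algebraMap K (v.adicCompletion K) α) ∧
    ∀ w : HeightOneSpectrum (𝓞 K), ∃ y : K, w.valuation K α = w.valuation K y ^ p ^ m

/-- Counting the functions `F` modulo coboundaries. -/
def StCnt : Prop := ∀ (K : Type u) [Field K] [NumberField K] (p : ℕ) [Fact p.Prime],
  (∀ ζ : K, ζ ^ p = 1 → ζ = 1) → ∀ (S : Set (HeightOneSpectrum (𝓞 K))),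
  (∀ v : HeightOneSpectrum (𝓞 K), (p : 𝓞 K) ∈ v.asIdeal → v ∈ S) →
  ∀ c : ℕ, LLeo K p c → ∀ m : ℕ, c ≤ m → ∀ (N : ℕ) (F : Fin N → GK K → ℤ_[p]),
  (∀ j, KF K p m S (F j)) →
  (∀ (j j' : Fin N) (t : ℤ_[p]),
    (∀ g, (p : ℤ_[p]) ^ m ∣ F j g - F j' g - ((cyc K p g : ℤ_[p]) - 1) * t) → j = j') →
  N ≤ classNumber K * p ^ (c * Units.rank K)

/-- Many functions `F` from independent cocycles in the twists `r ≡ 1 mod p - 1`, `r ≠ 1`. -/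
def StFun : Prop := ∀ (K : Type u) [Field K] [NumberField K] (p : ℕ) [Fact p.Prime],
  (∀ ζ : K, ζ ^ p = 1 → ζ = 1) → ∀ (S : Set (HeightOneSpectrum (𝓞 K))) (k : ℕ) (r : Fin k → ℤ)
  (φ : Fin k → GK K → ℤ_[p]),
  (∀ i, r i ≠ 1 ∧ ((p : ℤ) - 1) ∣ r i - 1 ∧ φ i ∈ ShaZ K p (r i) S) → Indep K p r φ →
  ∃ m0 : ℕ, ∀ m : ℕ, m0 ≤ m → ∃ (N : ℕ) (F : Fin N → GK K → ℤ_[p]),
    (∀ j, KF K p m S (F j)) ∧
    (∀ (j j' : Fin N) (t : ℤ_[p]),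
      (∀ g, (p : ℤ_[p]) ^ m ∣ F j g - F j' g - ((cyc K p g : ℤ_[p]) - 1) * t) → j = j') ∧
    p ^ (∑ i, (1 + padicValInt p (r i - 1))) ≤ N

/-- The bound on the exceptional twists in terms of the class number and the Leopoldt exponent. -/
def StTwo : Prop := ∀ (K : Type u) [Field K] [NumberField K] (p : ℕ) [Fact p.Prime],
  (∀ ζ : K, ζ ^ p = 1 → ζ = 1) → ∀ (S : Set (HeightOneSpectrum (𝓞 K))),
  (∀ v : HeightOneSpectrum (𝓞 K), (p : 𝓞 K) ∈ v.asIdeal → v ∈ S) →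
  ∀ c : ℕ, LLeo K p c → ∀ (k : ℕ) (r : Fin k → ℤ) (φ : Fin k → GK K → ℤ_[p]),
  (∀ i, r i ≠ 1 ∧ ((p : ℤ) - 1) ∣ r i - 1 ∧ φ i ∈ ShaZ K p (r i) S) → Indep K p r φ →
  p ^ (∑ i, (1 + padicValInt p (r i - 1))) ≤ classNumber K * p ^ (c * Units.rank K)

theorem stTwo (h1 : StFun.{u}) (h2 : StCnt.{u}) : StTwo.{u} := by
  intro K _ _ p _ hζ S hS c hc k r φ hφ hind
  obtain ⟨m0, hm0⟩ := h1 K p hζ S k r φ hφ hind
  obtain ⟨N, F, hF1, hF2, hN⟩ := hm0 (max m0 c) (le_max_left _ _)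
  exact hN.trans (h2 K p hζ S hS c hc (max m0 c) (le_max_right _ _) N F hF1 hF2)

end Pool.Agent.Work.MP_59f3ad_nt.Tw
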