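import Mathlib
import Pool.Agent.Work.MP_59f3ad_nt.Tw.Stmts
import Pool.Agent.Work.MP_59f3ad_nt.Bd.B01

/-!
Explicit form of the exponent of the local units modulo `p`.
-/

open NumberField IsDedekindDomain

namespace Pool.Agent.Work.MP_59f3ad_nt.Tw

universe u

namespace TexX

variable (K : Type u) [Field K] [NumberField K]

/-- The ramification index as a multiplicity. -/
noncomputable def ram (p : ℕ) (v : HeightOneSpectrum (𝓞 K)) : ℕ :=
  (Associates.mk v.asIdeal).count (Associates.mk (Ideal.span {((p : ℕ) : 𝓞 K)})).factors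

theorem p_ne_zero {p : ℕ} (hp : p.Prime) : (p : 𝓞 K) ≠ 0 := by
  exact_mod_cast hp.ne_zero

theorem mem_pow_ram {p : ℕ} (hp : p.Prime) (v : HeightOneSpectrum (𝓞 K)) :
    (p : 𝓞 K) ∈ v.asIdeal ^ ram K p v := by
  rw [← HeightOneSpectrum.intValuation_le_pow_iff_mem,
    HeightOneSpectrum.intValuation_if_neg v (p_ne_zero K hp)]
  rfl

theorem norm_dvd {p : ℕ} (v : HeightOneSpectrum (𝓞 K)) (e : ℕ)
    (h : (p : 𝓞 K) ∈ v.asIdeal ^ e) :
    Ideal.absNorm v.asIdeal ^ e ∣ p ^ Module.finrank ℚ K := by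
  rw [← map_pow, ← RingOfIntegers.rank K, ← Ideal.absNorm_span_natCast]
  apply Ideal.absNorm_dvd_absNorm_of_le
  rw [Ideal.span_le, Set.singleton_subset_iff]
  exact h

theorem norm_ne_one (v : HeightOneSpectrum (𝓞 K)) : Ideal.absNorm v.asIdeal ≠ 1 := by
  intro h
  exact v.isPrime.ne_top (Ideal.absNorm_eq_one_iff.mp h)

theorem p_dvd_norm {p : ℕ} (hp : p.Prime) (v : HeightOneSpectrum (𝓞 K))
    (h : (p : 𝓞 K) ∈ v.asIdeal) : p ∣ Ideal.absNorm v.asIdeal := by
  have h1 := norm_dvd K v 1 (by simpa using h)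
  rw [pow_one, Nat.dvd_prime_pow hp] at h1
  obtain ⟨f, -, hf⟩ := h1
  rw [hf]
  apply dvd_pow_self
  rintro rfl
  exact norm_ne_one K v (by simpa using hf)

theorem ram_le {p : ℕ} (hp : p.Prime) (v : HeightOneSpectrum (𝓞 K))
    (h : (p : 𝓞 K) ∈ v.asIdeal) : ram K p v ≤ Module.finrank ℚ K := by
  have h1 := norm_dvd K v _ (mem_pow_ram K hp v)
  have h2 := (pow_dvd_pow_of_dvd (p_dvd_norm K hp v h) (ram K p v)).trans h1
  exact (Nat.pow_dvd_pow_iff_le_right hp.one_lt).mp h2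

/-- Fermat in the residue field. -/
theorem fermat (v : HeightOneSpectrum (𝓞 K)) (a : 𝓞 K) (ha : a ∉ v.asIdeal) :
    a ^ (Ideal.absNorm v.asIdeal - 1) - 1 ∈ v.asIdeal := by
  have hfin : Finite (𝓞 K ⧸ v.asIdeal) := Ideal.finiteQuotientOfFreeOfNeBot _ v.ne_bot
  have hmax : v.asIdeal.IsMaximal := v.isMaximal
  let _ : Field (𝓞 K ⧸ v.asIdeal) := Ideal.Quotient.field v.asIdeal
  let _ : Fintype (𝓞 K ⧸ v.asIdeal) := Fintype.ofFinite _
  have h1 : (Ideal.Quotient.mk v.asIdeal a) ≠ 0 := by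
    rwa [Ne, Ideal.Quotient.eq_zero_iff_mem]
  have h2 := FiniteField.pow_card_sub_one_eq_one _ h1
  have h3 : Fintype.card (𝓞 K ⧸ v.asIdeal) = Ideal.absNorm v.asIdeal := by
    rw [Ideal.absNorm_apply, Submodule.cardQuot_apply, Nat.card_eq_fintype_card]
  rw [h3] at h2
  rw [← Ideal.Quotient.eq_zero_iff_mem, map_sub, map_pow, map_one, h2, sub_self]

theorem exists_exponent' {p : ℕ} (hp : p.Prime) (v : HeightOneSpectrum (𝓞 K)) (j : ℕ)
    (hj : ram K p v ≤ p ^ j) (a : 𝓞 K) (ha : a ∉ v.asIdeal) :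
    a ^ ((Ideal.absNorm v.asIdeal - 1) * p ^ j) - 1 ∈ v.asIdeal ^ ram K p v := by
  set z := a ^ (Ideal.absNorm v.asIdeal - 1) - 1 with hz
  have h1 : z ∈ v.asIdeal := fermat K v a ha
  obtain ⟨r, hr⟩ := exists_add_pow_prime_pow_eq hp (1 : 𝓞 K) z j
  have h2 : a ^ ((Ideal.absNorm v.asIdeal - 1) * p ^ j) - 1 = z ^ p ^ j + (p : 𝓞 K) * (z * r) := by
    have h3 : 1 + z = a ^ (Ideal.absNorm v.asIdeal - 1) := by rw [hz]; ring
    rw [pow_mul, ← h3, hr, one_pow]
    ring
  rw [h2]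
  refine add_mem ?_ (Ideal.mul_mem_right _ _ (mem_pow_ram K hp v))
  exact Ideal.pow_le_pow_right hj (Ideal.pow_mem_pow h1 _)

theorem exists_exponent_local' {p : ℕ} (hp : p.Prime) (v : HeightOneSpectrum (𝓞 K)) (j : ℕ)
    (hj : ram K p v ≤ p ^ j) (η : v.adicCompletionIntegers K)
    (hη : Valued.v (η : v.adicCompletion K) = 1) :
    algebraMap (𝓞 K) (v.adicCompletionIntegers K) (p : 𝓞 K) ∣
      η ^ ((Ideal.absNorm v.asIdeal - 1) * p ^ j) - 1 := by
  have hc : (p : 𝓞 K) ≠ 0 := p_ne_zero K hp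
  have hv1 : ∀ k : K, Valued.v (algebraMap K (v.adicCompletion K) k) = v.valuation K k :=
    fun k => HeightOneSpectrum.valuedAdicCompletion_eq_valuation' v k
  have hI := HeightOneSpectrum.adicCompletionIntegers.integers (R := 𝓞 K) K v
  obtain ⟨a, ha⟩ := exists_int_approx K v (η : v.adicCompletion K) hη.le (p : 𝓞 K) hc
  have hc1 : v.valuation K ((p : 𝓞 K) : K) ≤ 1 := HeightOneSpectrum.valuation_le_one v _
  have ha1 : Valued.v (algebraMap K (v.adicCompletion K) (a : K)) = 1 := by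
    have h1 : algebraMap K (v.adicCompletion K) (a : K) =
        (algebraMap K (v.adicCompletion K) (a : K) - η) + η := by ring
    rw [h1, Valuation.map_add_eq_of_lt_right, hη]
    rw [hη]
    refine ha.trans_le ?_
    rw [hv1]
    exact hc1
  have ha2 : a ∉ v.asIdeal := by
    rw [hv1] at ha1
    exact (HeightOneSpectrum.valuation_eq_one_iff_notMem (K := K) v).mp ha1
  have h3 := exists_exponent' K hp v j hj a ha2
  rw [← HeightOneSpectrum.intValuation_le_pow_iff_mem] at h3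
  have h3' : v.intValuation (a ^ ((Ideal.absNorm v.asIdeal - 1) * p ^ j) - 1) ≤
      v.intValuation (p : 𝓞 K) := by
    rw [HeightOneSpectrum.intValuation_if_neg v hc]
    exact h3
  rw [← HeightOneSpectrum.valuation_of_algebraMap (K := K),
    ← HeightOneSpectrum.valuation_of_algebraMap (K := K)] at h3'
  have d1 : algebraMap (𝓞 K) (v.adicCompletionIntegers K) (p : 𝓞 K) ∣
      algebraMap (𝓞 K) (v.adicCompletionIntegers K)
        (a ^ ((Ideal.absNorm v.asIdeal - 1) * p ^ j) - 1) := by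
    apply hI.dvd_of_le
    show Valued.v (algebraMap K (v.adicCompletion K)
        ((a ^ ((Ideal.absNorm v.asIdeal - 1) * p ^ j) - 1 : 𝓞 K) : K)) ≤
      Valued.v (algebraMap K (v.adicCompletion K) ((p : 𝓞 K) : K))
    rw [hv1, hv1]
    exact h3'
  have d2 : algebraMap (𝓞 K) (v.adicCompletionIntegers K) (p : 𝓞 K) ∣
      algebraMap (𝓞 K) (v.adicCompletionIntegers K) a - η := by
    apply hI.dvd_of_le
    exact ha.le
  have d3 : algebraMap (𝓞 K) (v.adicCompletionIntegers K) (p : 𝓞 K) ∣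
      (algebraMap (𝓞 K) (v.adicCompletionIntegers K) a) ^
        ((Ideal.absNorm v.asIdeal - 1) * p ^ j) -
        η ^ ((Ideal.absNorm v.asIdeal - 1) * p ^ j) :=
    d2.trans (sub_dvd_pow_sub_pow _ _ _)
  have h4 : η ^ ((Ideal.absNorm v.asIdeal - 1) * p ^ j) - 1 =
      algebraMap (𝓞 K) (v.adicCompletionIntegers K)
        (a ^ ((Ideal.absNorm v.asIdeal - 1) * p ^ j) - 1) -
      ((algebraMap (𝓞 K) (v.adicCompletionIntegers K) a) ^
        ((Ideal.absNorm v.asIdeal - 1) * p ^ j) -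
        η ^ ((Ideal.absNorm v.asIdeal - 1) * p ^ j)) := by
    rw [map_sub, map_pow, map_one]
    ring
  rw [h4]
  exact dvd_sub d1 d3

/-- The gluing step of `exists_local_exponent`, for a given exponent. -/
theorem glue {p : ℕ} (hp : p.Prime) (S : ℕ)
    (hS : ∀ v : HeightOneSpectrum (𝓞 K), (p : 𝓞 K) ∈ v.asIdeal →
      ∀ η : v.adicCompletionIntegers K, Valued.v (η : v.adicCompletion K) = 1 →
      algebraMap (𝓞 K) (v.adicCompletionIntegers K) (p : 𝓞 K) ∣ η ^ S - 1)
    (n : ℕ) (u : (𝓞 K)ˣ) (hu : LocPow K p n ((u : 𝓞 K) : K)) :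
    (p : 𝓞 K) ^ (n + 1) ∣ (u : 𝓞 K) ^ S - 1 := by
  have hp0 : (p : 𝓞 K) ≠ 0 := p_ne_zero K hp
  have hpL : ((p : 𝓞 K) : K) ≠ 0 := by
    rw [Ne, RingOfIntegers.coe_eq_zero_iff]
    exact hp0
  have key : ∀ v : HeightOneSpectrum (𝓞 K),
      v.valuation K (((((u : 𝓞 K) ^ S - 1 : 𝓞 K)) : K) / ((p : 𝓞 K) : K) ^ (n + 1)) ≤ 1 := by
    intro v
    have hv1 : ∀ k : K, Valued.v (algebraMap K (v.adicCompletion K) k) = v.valuation K k :=
      fun k => HeightOneSpectrum.valuedAdicCompletion_eq_valuation' v k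
    by_cases hv : (p : 𝓞 K) ∈ v.asIdeal
    · have hI := HeightOneSpectrum.adicCompletionIntegers.integers (R := 𝓞 K) K v
      obtain ⟨η, hη⟩ := hu v hv
      have hu1 : v.valuation K (((u : 𝓞 K)) : K) = 1 := by
        apply (HeightOneSpectrum.valuation_eq_one_iff_notMem (K := K) v).mpr
        intro h1
        exact v.isPrime.ne_top (Ideal.eq_top_of_isUnit_mem _ h1 u.isUnit)
      have hη1 : Valued.v η = 1 := by
        have h1 : Valued.v η ^ (p ^ n) = 1 := by
          rw [← map_pow, hη, hv1, hu1]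
        exact (pow_eq_one_iff_of_nonneg zero_le (pow_ne_zero _ hp.ne_zero)).mp h1
      let η' : v.adicCompletionIntegers K := ⟨η, by
        rw [HeightOneSpectrum.mem_adicCompletionIntegers]
        exact hη1.le⟩
      have d2 : ((p : ℕ) : v.adicCompletionIntegers K) ∣ η' ^ S - 1 := by
        have h1 : algebraMap (𝓞 K) (v.adicCompletionIntegers K) (p : 𝓞 K) =
            ((p : ℕ) : v.adicCompletionIntegers K) := map_natCast _ _
        rw [← h1]
        exact hS v hv η' hη1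
      have d3 := dvd_sub_pow_of_dvd_sub d2 n
      rw [one_pow] at d3
      have h2 : (η' ^ S) ^ p ^ n = algebraMap (𝓞 K) (v.adicCompletionIntegers K)
          ((u : 𝓞 K) ^ S) := by
        apply Subtype.ext
        rw [← pow_mul, mul_comm, pow_mul, map_pow]
        show (η ^ p ^ n) ^ S = (algebraMap K (v.adicCompletion K) ((u : 𝓞 K) : K)) ^ S
        rw [hη]
      rw [h2, ← map_one (algebraMap (𝓞 K) (v.adicCompletionIntegers K)), ← map_sub] at d3
      have h3 := hI.le_of_dvd d3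
      have h4 : Valued.v (algebraMap K (v.adicCompletion K) (((u : 𝓞 K) ^ S - 1 : 𝓞 K) : K)) ≤
          Valued.v (algebraMap K (v.adicCompletion K) (((p : 𝓞 K) : K) ^ (n + 1))) := by
        refine h3.trans (le_of_eq ?_)
        simp
      rw [hv1, hv1] at h4
      rw [map_div₀]
      exact div_le_one_of_le₀ h4 (by simp)
    · have h1 : v.valuation K ((p : 𝓞 K) : K) = 1 :=
        (HeightOneSpectrum.valuation_eq_one_iff_notMem (K := K) v).mpr hv
      rw [map_div₀, map_pow, h1, one_pow, div_one]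
      exact HeightOneSpectrum.valuation_le_one v _
  obtain ⟨w, hw⟩ := HeightOneSpectrum.mem_integers_of_valuation_le_one K _ key
  refine ⟨w, ?_⟩
  apply RingOfIntegers.coe_injective
  have h5 : ((w : 𝓞 K) : K) = (((u : 𝓞 K) ^ S - 1 : 𝓞 K) : K) / ((p : 𝓞 K) : K) ^ (n + 1) := hw
  have h6 : algebraMap (𝓞 K) K ((p : 𝓞 K) ^ (n + 1) * w) =
      ((p : 𝓞 K) : K) ^ (n + 1) * (w : K) := by
    rw [map_mul, map_pow]
  rw [h6, h5]
  field_simp

end TexX

open TexX in
/-- Explicit exponent. -/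
theorem pr_Tex : StTex.{u} := by
  intro K _ _ p hp
  classical
  have hp0 : (p : 𝓞 K) ≠ 0 := p_ne_zero K hp
  have hfin : {v : HeightOneSpectrum (𝓞 K) | v.asIdeal ∣ Ideal.span {(p : 𝓞 K)}}.Finite := by
    apply Ideal.finite_factors
    intro h
    exact hp0 (Ideal.span_singleton_eq_bot.mp h)
  have hmem : ∀ v : HeightOneSpectrum (𝓞 K), v ∈ hfin.toFinset ↔ (p : 𝓞 K) ∈ v.asIdeal := by
    intro v
    rw [Set.Finite.mem_toFinset]
    show v.asIdeal ∣ Ideal.span {(p : 𝓞 K)} ↔ _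
    rw [Ideal.dvd_span_singleton]
  set d := Module.finrank ℚ K with hd
  have hdpos : 0 < d := Module.finrank_pos
  set j := Nat.clog p d with hj
  have hdj : d ≤ p ^ j := Nat.le_pow_clog hp.one_lt d
  have hpj : p ^ j ≤ p * d := by
    rcases Nat.lt_or_ge 1 d with h1 | h1
    · have h2 := Nat.pow_pred_clog_lt_self hp.one_lt h1
      rcases Nat.eq_zero_or_pos j with h0 | h0
      · rw [h0, pow_zero]
        exact Nat.mul_pos hp.pos hdpos
      · have h3 : p ^ j = p * p ^ (j.pred) := by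
          rw [← pow_succ', ← Nat.succ_eq_add_one, Nat.succ_pred_eq_of_pos h0]
        rw [h3]
        exact Nat.mul_le_mul_left p h2.le
    · have h2 : d = 1 := by omega
      have h3 : j = 0 := by rw [hj, h2]; exact Nat.clog_one_right p
      rw [h3, pow_zero]
      exact Nat.mul_pos hp.pos hdpos
  have hq : ∀ v ∈ hfin.toFinset, 1 < Ideal.absNorm v.asIdeal := by
    intro v hv
    have h1 := p_dvd_norm K hp v ((hmem v).mp hv)
    have h2 : Ideal.absNorm v.asIdeal ≠ 0 := by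
      rw [Ne, Ideal.absNorm_eq_zero_iff]
      exact v.ne_bot
    exact hp.one_lt.trans_le (Nat.le_of_dvd (Nat.pos_of_ne_zero h2) h1)
  refine ⟨p ^ j * ∏ v ∈ hfin.toFinset, (Ideal.absNorm v.asIdeal - 1), j, ?_, ?_, hpj, ?_⟩
  · refine mul_ne_zero (pow_ne_zero _ hp.ne_zero) (Finset.prod_ne_zero_iff.mpr fun v hv => ?_)
    have := hq v hv
    omega
  · intro h
    rw [pow_succ, Nat.mul_dvd_mul_iff_left (pow_pos hp.pos j),
      Prime.dvd_finsetProd_iff hp.prime] at h
    obtain ⟨v, hv, h1⟩ := h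
    have h2 := p_dvd_norm K hp v ((hmem v).mp hv)
    have h3 := hq v hv
    have h4 : p ∣ 1 := by
      have h5 := Nat.dvd_sub h2 h1
      have h6 : Ideal.absNorm v.asIdeal - (Ideal.absNorm v.asIdeal - 1) = 1 := by omega
      rwa [h6] at h5
    exact hp.one_lt.ne' (Nat.dvd_one.mp h4)
  · intro n u hu
    refine glue K hp _ ?_ n u hu
    intro v hv η hη
    have h1 := exists_exponent_local' K hp v j ((ram_le K hp v hv).trans hdj) η hη
    have h2 : (Ideal.absNorm v.asIdeal - 1) * p ^ j ∣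
        p ^ j * ∏ v ∈ hfin.toFinset, (Ideal.absNorm v.asIdeal - 1) := by
      rw [mul_comm]
      exact mul_dvd_mul_left _ (Finset.dvd_prod_of_mem _ ((hmem v).mpr hv))
    obtain ⟨m, hm⟩ := h2
    rw [hm, pow_mul]
    refine h1.trans ?_
    have := sub_dvd_pow_sub_pow (η ^ ((Ideal.absNorm v.asIdeal - 1) * p ^ j)) 1 m
    rwa [one_pow] at this

end Pool.Agent.Work.MP_59f3ad_nt.Tw
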