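import Mathlib
import Pool.Agent.Work.MP_59f3ad_nt.Multi
import Pool.Agent.Work.MP_59f3ad_nt.Bdx.B04

/-!
Statements for the third theorem: in an arbitrary family with a full system of parametric units
there are, for almost all primes `p ≤ √H`, no exceptional twists `r ≡ 1 mod p - 1` at all.
-/

open NumberField IsDedekindDomain Polynomial

namespace Pool.Agent.Work.MP_59f3ad_nt.Tw

open Pool.Agent.Work.MP_59f3ad_nt Pool.Agent.Work.MP_59f3ad_nt.Cod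

universe u

/-- Apply an additive map to the coefficients of a polynomial. -/
noncomputable def mc {R S : Type*} [CommRing R] [CommRing S] (δ : R →+ S) (P : R[X]) : S[X] :=
  ∑ k ∈ Finset.range (P.natDegree + 1), monomial k (δ (P.coeff k))

theorem coeff_mc {R S : Type*} [CommRing R] [CommRing S] (δ : R →+ S) (P : R[X]) (k : ℕ) :
    (mc δ P).coeff k = δ (P.coeff k) := by
  rw [mc, finsetSum_coeff]
  simp only [coeff_monomial]
  rw [Finset.sum_ite_eq' (Finset.range (P.natDegree + 1)) k (fun j => δ (P.coeff j))]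
  split_ifs with h
  · rfl
  · rw [Finset.mem_range, not_lt] at h
    rw [coeff_eq_zero_of_natDegree_lt (by omega), map_zero]

/-- The derivative of a polynomial in the parameters in the direction `v`. -/
noncomputable def dv {σ : Type} [Fintype σ] (v : σ → ℤ) :
    MvPolynomial σ ℤ →+ MvPolynomial σ ℤ :=
  AddMonoidHom.mk' (fun P => ∑ i, MvPolynomial.C (v i) * MvPolynomial.pderiv i P) (by
    intro a b
    simp [mul_add, Finset.sum_add_distrib])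

theorem dv_apply {σ : Type} [Fintype σ] (v : σ → ℤ) (P : MvPolynomial σ ℤ) :
    dv v P = ∑ i, MvPolynomial.C (v i) * MvPolynomial.pderiv i P := rfl

/-- `∂F/∂X` times the logarithmic derivative of the unit represented by `H` (with inverse `G`) in
the direction given by `δ` (modulo `F`). -/
noncomputable def WF {R : Type*} [CommRing R] (δ : R →+ R) (F H G : R[X]) : R[X] :=
  G * (derivative F * mc δ H - mc δ F * derivative H)

/-- The derivation `d/dT` of `ℂ[T]`. -/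
noncomputable def dT : ℂ[X] →+ ℂ[X] := (Polynomial.derivative : ℂ[X] →ₗ[ℂ] ℂ[X]).toAddMonoidHom

/-- (Lim) A relation with polynomial coefficients between derivatives of functions of logarithmic
growth gives a relation between the growth exponents. -/
def StLim : Prop := ∀ (n N : ℕ) (B : ℝ) (L L' : Fin n → ℝ → ℝ) (v : Fin n → ℝ)
  (g : Fin n → ℤ[X]), (∀ l, ∀ t, B < t → HasDerivAt (L l) (L' l t) t) →
  (∀ l, ∃ K : ℝ, ∀ᶠ t in Filter.atTop, |L l t - v l * Real.log t| ≤ K) →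
  (∀ l, (g l).natDegree ≤ N) →
  (∀ t : ℝ, B < t → ∑ l, ((g l).map (Int.castRingHom ℝ)).eval t * L' l t = 0) →
  ∑ l, ((g l).coeff N : ℝ) * v l = 0

/-- (NVB) One parameter, complex coefficients: the logarithmic derivatives of units which are
independent modulo constants satisfy no relation over `ℤ[T]`. The finite set `T` is as in
`exists_logDetC_fin`. -/
def StNVB : Prop := ∀ n d D : ℕ, ∃ T : Finset (Fin n → ℤ), (∀ E ∈ T, E ≠ 0) ∧
  ∀ (F : ℂ[X][X]) (_ : F.Monic) (_ : F.natDegree = d) (t0 : ℂ)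
    (_ : (F.map (evC t0)).Separable) (u : Fin n → (AdjoinRoot F)ˣ)
    (_ : ∀ E ∈ T, Transcendental ℂ ((∏ i, u i ^ E i : (AdjoinRoot F)ˣ) : AdjoinRoot F))
    (H G : Fin n → ℂ[X][X]) (_ : ∀ i, AdjoinRoot.mk F (H i) = u i)
    (_ : ∀ l, F ∣ H l * G l - 1)
    (G' : Fin n → ℂ[X][X]) (_ : ∀ l, G' l ≠ 0) (_ : ∀ l, (G' l).natDegree ≤ d)
    (_ : ∀ l k, ((G' l).coeff k).natDegree ≤ D)
    (_ : ∀ l (t z : ℂ), (F.map (evC t)).eval z = 0 →
      ((G' l).map (evC t)).eval (((H l).map (evC t)).eval z) = 0)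
    (g : Fin n → ℤ[X]),
    F ∣ ∑ l, C ((g l).map (Int.castRingHom ℂ)) * WF dT F (H l) (G l) → g = 0

/-- (NVA) Several parameters: in a suitable direction some minor of the coefficient matrix of the
logarithmic derivatives is not zero. -/
def StNVA : Prop := ∀ (σ : Type) [Fintype σ] (F : (MvPolynomial σ ℤ)[X]), F.Monic →
  ∀ (_ : σ) (n : ℕ) (u : Fin n → (AdjoinRoot F)ˣ),
  (∀ E : Fin n → ℤ, E ≠ 0 →
    Transcendental ℤ ((∏ i, u i ^ E i : (AdjoinRoot F)ˣ) : AdjoinRoot F)) →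
  (∃ t : σ → ℤ, Irreducible (F.map (MvPolynomial.eval t))) →
  ∀ (H G : Fin n → (MvPolynomial σ ℤ)[X]), (∀ i, AdjoinRoot.mk F (H i) = u i) →
  (∀ l, F ∣ H l * G l - 1) →
  ∃ (v : σ → ℤ) (φ : Fin n → ℕ),
    (Matrix.of fun l k : Fin n => ((WF (dv v) F (H l) (G l)) %ₘ F).coeff (φ k)).det ≠ 0

/-- (MvT) Taylor expansion modulo `p ^ 2`. -/
def StMvT : Prop := ∀ (σ : Type) [Fintype σ] (P : MvPolynomial σ ℤ) (t0 s : σ → ℤ) (p : ℤ),
  p ^ 2 ∣ MvPolynomial.eval (fun i => t0 i + p * s i) P - MvPolynomial.eval t0 P -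
    p * MvPolynomial.eval t0 (dv s P)

/-- `NB1` for a general family. -/
def NBG {σ : Type} (F : (MvPolynomial σ ℤ)[X]) (p n : ℕ) (t : σ → ℤ) : Prop :=
  ∀ (K : Type u) [Field K] [NumberField K] (x : 𝓞 K), Module.finrank ℚ K = F.natDegree →
    aeval x (F.map (MvPolynomial.eval t)) = 0 → ∃ w : Fin n → (𝓞 K)ˣ, PInd K p w 1

/-- (DigG) `StDig1` for a general family. -/
def StDigG : Prop := ∀ (p : ℕ) [Fact p.Prime], p ≠ 2 → ∀ (σ : Type) [Fintype σ]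
  (F : (MvPolynomial σ ℤ)[X]), F.Monic → ∀ (n : ℕ) (H G : Fin n → (MvPolynomial σ ℤ)[X]),
  (∀ l, F ∣ H l * G l - 1) → ∀ t0 : σ → ℤ,
  ((F.map (MvPolynomial.eval t0)).map (red p)).Separable →
  ∃ (M : ℕ) (L : Fin n → (ZMod p)[X]), ¬ p ∣ M ∧ ∀ s : σ → ℤ,
    Irreducible (F.map (MvPolynomial.eval fun i => t0 i + p * s i)) →
    ¬ NBG.{u} F p n (fun i => t0 i + p * s i) →
    ∃ c : Fin n → ZMod p, c ≠ 0 ∧ (F.map (MvPolynomial.eval t0)).map (red p) ∣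
      ∑ l, C (c l) * (L l + C (M : ZMod p) *
        ((WF (dv s) F (H l) (G l)).map (MvPolynomial.eval t0)).map (red p))

/-- (Pen) A pencil of vectors. -/
def StPen : Prop := ∀ (p : ℕ) [Fact p.Prime] (n : ℕ) (V : Type) [AddCommGroup V]
  [Module (ZMod p) V] (a w : Fin n → V), LinearIndependent (ZMod p) w →
  {τ : ZMod p | ∃ c : Fin n → ZMod p, c ≠ 0 ∧ ∑ l, c l • (a l + τ • w l) = 0}.ncard ≤ n

/-- (ClsG) Few bad digits in the direction `v`. -/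
def StClsG : Prop := ∀ (p : ℕ) [Fact p.Prime], p ≠ 2 → ∀ (σ : Type) [Fintype σ]
  (F : (MvPolynomial σ ℤ)[X]), F.Monic → ∀ (n : ℕ) (H G : Fin n → (MvPolynomial σ ℤ)[X]),
  (∀ l, F ∣ H l * G l - 1) → ∀ (v : σ → ℤ) (φ : Fin n → ℕ) (t0 : σ → ℤ),
  ((F.map (MvPolynomial.eval t0)).map (red p)).Separable →
  ((MvPolynomial.eval t0 (Matrix.of fun l k : Fin n =>
    ((WF (dv v) F (H l) (G l)) %ₘ F).coeff (φ k)).det : ℤ) : ZMod p) ≠ 0 →
  ∀ s' : σ → ℤ, {τ : ZMod p | ∃ s : σ → ℤ,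
    (∀ i, ((s i : ℤ) : ZMod p) = ((s' i : ℤ) : ZMod p) + τ * ((v i : ℤ) : ZMod p)) ∧
    Irreducible (F.map (MvPolynomial.eval fun i => t0 i + p * s i)) ∧
    ¬ NBG.{u} F p n (fun i => t0 i + p * s i)}.ncard ≤ n

/-- (BadE) The bad residue classes. -/
def StBadE : Prop := ∀ (σ : Type) [Fintype σ] (F : (MvPolynomial σ ℤ)[X]), F.Monic →
  (∃ t : σ → ℤ, Irreducible (F.map (MvPolynomial.eval t))) →
  ∀ Δ : MvPolynomial σ ℤ, Δ ≠ 0 → ∃ C1 p0 : ℕ, ∀ (p : ℕ) [Fact p.Prime], p0 < p →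
    {y : σ → ZMod p |
      ¬ (F.map (MvPolynomial.aeval y : MvPolynomial σ ℤ →ₐ[ℤ] ZMod p).toRingHom).Separable ∨
      MvPolynomial.aeval y Δ = 0}.ncard ≤ C1 * p ^ (Fintype.card σ - 1)

/-- (CntV) Counting the points of a box in bad classes modulo `p`, or with few bad digits in one
direction modulo `p ^ 2`. -/
def StCntV : Prop := ∀ (σ : Type) [Fintype σ] (N C1 : ℕ), 1 ≤ Fintype.card σ →
  ∃ C : ℕ, ∀ (p : ℕ) [Fact p.Prime] (H : ℕ), p ^ 2 ≤ H →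
  ∀ (v : σ → ZMod p) (S : Set (σ → ℤ)) (E : Set (σ → ZMod p)),
  E.ncard ≤ C1 * p ^ (Fintype.card σ - 1) →
  (∀ t0 : σ → ℤ, (fun i => ((t0 i : ℤ) : ZMod p)) ∉ E → ∀ s' : σ → ℤ,
    {τ : ZMod p | ∃ s : σ → ℤ, (∀ i, ((s i : ℤ) : ZMod p) = ((s' i : ℤ) : ZMod p) + τ * v i) ∧
      (fun i => t0 i + p * s i) ∈ S}.ncard ≤ N) →
  p * {t : σ → ℤ | (∀ i, |t i| ≤ H) ∧
      (t ∈ S ∨ (fun i => ((t i : ℤ) : ZMod p)) ∈ E)}.ncard ≤ C * H ^ Fintype.card σ

/-- (Mk1) Summation over the primes and Markov's inequality. -/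
def StMk1 : Prop := ∀ (σ : Type) [Fintype σ] (C0 p0 : ℕ),
  ∃ C : ℕ, ∀ Bad : ℕ → Set (σ → ℤ), ∀ H : ℕ, 2 ≤ H →
  (∀ p : ℕ, p.Prime → p0 < p → p ^ 2 ≤ H →
    p * {t : σ → ℤ | (∀ i, |t i| ≤ H) ∧ t ∈ Bad p}.ncard ≤ C0 * H ^ Fintype.card σ) →
  ({t : σ → ℤ | (∀ i, |t i| ≤ H) ∧ (Real.log H) ^ 2 <
    ({p : ℕ | p.Prime ∧ p0 < p ∧ p ^ 2 ≤ H ∧ t ∈ Bad p}.ncard : ℝ)}.ncard : ℝ) ≤
    C * (H : ℝ) ^ Fintype.card σ / Real.log H

/-- (PrimeG) The bad parameters for a single prime. -/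
def StPrimeG : Prop := ∀ (σ : Type) [Fintype σ] (F : (MvPolynomial σ ℤ)[X]), F.Monic →
  ∀ (_ : σ) (n : ℕ) (u : Fin n → (AdjoinRoot F)ˣ),
  (∀ E : Fin n → ℤ, E ≠ 0 →
    Transcendental ℤ ((∏ i, u i ^ E i : (AdjoinRoot F)ˣ) : AdjoinRoot F)) →
  ∃ C p0 : ℕ, ∀ (p : ℕ) [Fact p.Prime], p0 < p → ∀ H : ℕ, p ^ 2 ≤ H →
  p * {t : σ → ℤ | (∀ i, |t i| ≤ H) ∧ Irreducible (F.map (MvPolynomial.eval t)) ∧
      (¬ ((F.map (MvPolynomial.eval t)).map (red p)).Separable ∨ ¬ NBG.{u} F p n t)}.ncard ≤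
    C * H ^ Fintype.card σ

end Pool.Agent.Work.MP_59f3ad_nt.Tw
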