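import Mathlib
import Pool.Agent.Work.MP_59f3ad_nt.Tw.Stmts7

/-!
Item ClsG: few bad digits in the direction `v`.
-/

open NumberField IsDedekindDomain Polynomial

namespace Pool.Agent.Work.MP_59f3ad_nt.Tw

open Pool.Agent.Work.MP_59f3ad_nt Pool.Agent.Work.MP_59f3ad_nt.Cod

universe u

namespace ClsGX

variable {σ : Type} [Fintype σ]

/-- evaluation at `t0` modulo `p` -/
noncomputable def ev (p : ℕ) (t0 : σ → ℤ) : MvPolynomial σ ℤ →+* ZMod p :=
  (red p).comp (MvPolynomial.eval t0)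

theorem ev_dv (p : ℕ) (t0 s : σ → ℤ) (Q : MvPolynomial σ ℤ) :
    ev p t0 (dv s Q) = ∑ i, ((s i : ℤ) : ZMod p) * ev p t0 (MvPolynomial.pderiv i Q) := by
  rw [dv_apply, map_sum]
  refine Finset.sum_congr rfl fun i _ => ?_
  rw [map_mul]
  congr 1
  show red p (MvPolynomial.eval t0 (MvPolynomial.C (s i))) = _
  rw [MvPolynomial.eval_C]
  rfl

theorem mc_lin (p : ℕ) (t0 s s' v : σ → ℤ) (τ : ZMod p)
    (h : ∀ i, ((s i : ℤ) : ZMod p) = ((s' i : ℤ) : ZMod p) + τ * ((v i : ℤ) : ZMod p))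
    (P : (MvPolynomial σ ℤ)[X]) :
    (mc (dv s) P).map (ev p t0) = (mc (dv s') P).map (ev p t0) +
      C τ * (mc (dv v) P).map (ev p t0) := by
  ext k
  rw [coeff_map, coeff_mc, coeff_add, coeff_map, coeff_mc, coeff_C_mul, coeff_map, coeff_mc,
    ev_dv, ev_dv, ev_dv, Finset.mul_sum, ← Finset.sum_add_distrib]
  refine Finset.sum_congr rfl fun i _ => ?_
  rw [h i]
  ring

theorem WF_lin (p : ℕ) (t0 s s' v : σ → ℤ) (τ : ZMod p)
    (h : ∀ i, ((s i : ℤ) : ZMod p) = ((s' i : ℤ) : ZMod p) + τ * ((v i : ℤ) : ZMod p))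
    (F H G : (MvPolynomial σ ℤ)[X]) :
    (WF (dv s) F H G).map (ev p t0) = (WF (dv s') F H G).map (ev p t0) +
      C τ * (WF (dv v) F H G).map (ev p t0) := by
  unfold WF
  simp only [Polynomial.map_mul, Polynomial.map_sub]
  rw [mc_lin p t0 s s' v τ h F, mc_lin p t0 s s' v τ h H]
  ring

/-- some coefficients -/
noncomputable def cf (p n : ℕ) (φ : Fin n → ℕ) : (ZMod p)[X] →ₗ[ZMod p] (Fin n → ZMod p) :=
  LinearMap.pi fun k => Polynomial.lcoeff (ZMod p) (φ k)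

theorem linIndW (p : ℕ) [Fact p.Prime] (n : ℕ) (φ : Fin n → ℕ) (m : ZMod p) (hm : m ≠ 0)
    (w : Fin n → (ZMod p)[X])
    (hdet : (Matrix.of fun l k : Fin n => (w l).coeff (φ k)).det ≠ 0) :
    LinearIndependent (ZMod p) (fun l => m • w l) := by
  apply LinearIndependent.of_comp (cf p n φ)
  have h1 : (m • (Matrix.of fun l k : Fin n => (w l).coeff (φ k))).det ≠ 0 := by
    rw [Matrix.det_smul]
    exact mul_ne_zero (pow_ne_zero _ hm) hdet
  have h2 := Matrix.linearIndependent_rows_of_det_ne_zero h1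
  convert h2 using 1
  funext l
  ext k
  show (m • w l).coeff (φ k) = m * (w l).coeff (φ k)
  rw [coeff_smul, smul_eq_mul]

theorem hom_C (p : ℕ) (fb X : (ZMod p)[X]) (a : ZMod p) :
    (modByMonicHom fb) (C a * X) = a • (modByMonicHom fb) X := by
  rw [← smul_eq_C_mul, map_smul]

end ClsGX

open ClsGX in
theorem pr_ClsG : StDigG.{u} → StPen → StClsG.{u} := by
  intro hDig hPen p _ hp2 σ _ F hF n H G hHG v φ t0 hsep hdet s'
  obtain ⟨M, L, hM, hD⟩ := hDig p hp2 σ F hF n H G hHG t0 hsep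
  have hM' : (M : ZMod p) ≠ 0 := by
    intro h
    exact hM ((ZMod.natCast_eq_zero_iff M p).1 h)
  have hmap : ∀ P : (MvPolynomial σ ℤ)[X],
      (P.map (MvPolynomial.eval t0)).map (red p) = P.map (ev p t0) := fun P =>
    Polynomial.map_map _ _ _
  set fb : (ZMod p)[X] := F.map (ev p t0) with hfb
  have hfbm : fb.Monic := hF.map _
  have hdet' : (Matrix.of fun l k : Fin n =>
      (((WF (dv v) F (H l) (G l)).map (ev p t0)) %ₘ fb).coeff (φ k)).det ≠ 0 := by
    have h1 : ((MvPolynomial.eval t0 (Matrix.of fun l k : Fin n =>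
        ((WF (dv v) F (H l) (G l)) %ₘ F).coeff (φ k)).det : ℤ) : ZMod p) =
        ev p t0 (Matrix.of fun l k : Fin n =>
        ((WF (dv v) F (H l) (G l)) %ₘ F).coeff (φ k)).det := rfl
    rw [h1, RingHom.map_det] at hdet
    convert hdet using 2
    ext l k
    show (((WF (dv v) F (H l) (G l)).map (ev p t0)) %ₘ fb).coeff (φ k) =
      ev p t0 (((WF (dv v) F (H l) (G l)) %ₘ F).coeff (φ k))
    rw [← coeff_map, Polynomial.map_modByMonic _ hF]
  have hw := linIndW p n φ (M : ZMod p) hM' (fun l =>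
    ((WF (dv v) F (H l) (G l)).map (ev p t0)) %ₘ fb) hdet'
  have hmain := hPen p n (ZMod p)[X] (fun l =>
    (L l + C (M : ZMod p) * (WF (dv s') F (H l) (G l)).map (ev p t0)) %ₘ fb) _ hw
  refine le_trans (Set.ncard_le_ncard ?_ (Set.toFinite _)) hmain
  rintro τ ⟨s, hs, hirr, hN⟩
  obtain ⟨c, hc, hdvd⟩ := hD s hirr hN
  refine ⟨c, hc, ?_⟩
  rw [hmap] at hdvd
  have h0 := (Polynomial.modByMonic_eq_zero_iff_dvd hfbm).2 hdvd
  have h1 : (modByMonicHom fb) (∑ l, C (c l) * (L l + C (M : ZMod p) *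
      ((WF (dv s) F (H l) (G l)).map (MvPolynomial.eval t0)).map (red p))) = 0 := h0
  rw [map_sum] at h1
  rw [← h1]
  refine Finset.sum_congr rfl fun l _ => ?_
  rw [hom_C]
  congr 1
  have e1 : (M : ZMod p) • (((WF (dv v) F (H l) (G l)).map (ev p t0)) %ₘ fb) =
      (modByMonicHom fb) (C (M : ZMod p) * (WF (dv v) F (H l) (G l)).map (ev p t0)) := by
    rw [hom_C]
    rfl
  have e2 : (L l + C (M : ZMod p) * (WF (dv s') F (H l) (G l)).map (ev p t0)) %ₘ fb =
      (modByMonicHom fb) (L l + C (M : ZMod p) * (WF (dv s') F (H l) (G l)).map (ev p t0)) := rfl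
  show (L l + C (M : ZMod p) * (WF (dv s') F (H l) (G l)).map (ev p t0)) %ₘ fb +
    τ • ((M : ZMod p) • (((WF (dv v) F (H l) (G l)).map (ev p t0)) %ₘ fb)) = _
  rw [e1, e2, ← hom_C, ← map_add]
  congr 1
  rw [hmap, WF_lin p t0 s s' v τ hs]
  ring

end Pool.Agent.Work.MP_59f3ad_nt.Tw
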