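import Mathlib
import Pool.Agent.Work.MP_59f3ad_nt.Tw.Stmts7

/-!
Several parameters: in a suitable direction some minor of the coefficient matrix of the
logarithmic derivatives is not zero.
-/

open NumberField IsDedekindDomain Polynomial

namespace Pool.Agent.Work.MP_59f3ad_nt.Tw

open Pool.Agent.Work.MP_59f3ad_nt Pool.Agent.Work.MP_59f3ad_nt.Cod

namespace NVAX

/-- a sum of squares of integral polynomials -/
theorem sq_zero {d : ℕ} (w : Fin d → ℤ[X]) (h : dotProduct w w = 0) : w = 0 := by
  funext j
  have h1 : ∀ t : ℤ, (w j).eval t = 0 := by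
    intro t
    have h2 : dotProduct (fun j => (w j).eval t) (fun j => (w j).eval t) = 0 := by
      have h3 := congrArg (evalRingHom t) h
      rw [map_zero] at h3
      rw [← h3]
      simp [dotProduct]
    rw [dotProduct_self_eq_zero] at h2
    exact congrFun h2 j
  exact Polynomial.funext fun t => by rw [h1 t]; simp

/-- a relation between the rows of a matrix without nonzero maximal minors -/
theorem exists_rel {n d : ℕ} (A : Matrix (Fin n) (Fin d) ℤ[X])
    (h : ∀ φ : Fin n → Fin d, (A.submatrix id φ).det = 0) :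
    ∃ g : Fin n → ℤ[X], g ≠ 0 ∧ ∀ j, ∑ i, g i * A i j = 0 := by
  have h1 : (A * A.transpose).det = 0 := GrowthMinor.det_mul_zero A A.transpose h
  obtain ⟨E, hE, hE2⟩ := Matrix.exists_vecMul_eq_zero_iff.mpr h1
  refine ⟨E, hE, ?_⟩
  have h2 : Matrix.vecMul E A = 0 := by
    rw [← Matrix.vecMul_vecMul, Matrix.vecMul_transpose] at hE2
    apply sq_zero
    rw [← Matrix.dotProduct_mulVec, hE2, dotProduct_zero]
  intro j
  have h3 := congrFun h2 j
  simpa [Matrix.vecMul, dotProduct] using h3

section
variable {σ : Type} [Fintype σ]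

theorem dv_C (v : σ → ℤ) (a : ℤ) : dv v (MvPolynomial.C a) = 0 := by
  rw [dv_apply]
  simp

theorem dv_mul_X (v : σ → ℤ) (P : MvPolynomial σ ℤ) (i : σ) :
    dv v (P * MvPolynomial.X i) = dv v P * MvPolynomial.X i + P * MvPolynomial.C (v i) := by
  classical
  rw [dv_apply, dv_apply, Finset.sum_mul]
  have h1 : ∀ j, MvPolynomial.C (v j) * MvPolynomial.pderiv j (P * MvPolynomial.X i) =
      MvPolynomial.C (v j) * MvPolynomial.pderiv j P * MvPolynomial.X i +
        P * (MvPolynomial.C (v j) * (if i = j then 1 else 0)) := by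
    intro j
    rw [Derivation.leibniz, MvPolynomial.pderiv_X, smul_eq_mul, smul_eq_mul]
    by_cases hij : i = j
    · subst hij
      rw [Pi.single_eq_same, if_pos rfl]
      ring
    · rw [Pi.single_eq_of_ne hij, if_neg hij]
      ring
  rw [Finset.sum_congr rfl fun j _ => h1 j, Finset.sum_add_distrib, ← Finset.mul_sum]
  congr 2
  simp

/-- chain rule on lines -/
theorem chain (v : σ → ℤ) (y : σ → ℂ) (P : MvPolynomial σ ℤ) :
    dT (lineHom v y P) = lineHom v y (dv v P) := by
  have hd : ∀ Q : ℂ[X], dT Q = derivative Q := fun _ => rfl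
  induction P using MvPolynomial.induction_on with
  | C a =>
    rw [dv_C, map_zero, hd]
    have : lineHom v y (MvPolynomial.C a) = C (a : ℂ) := by simp [lineHom]
    rw [this, derivative_C]
  | add P Q hP hQ => rw [map_add, map_add, map_add, map_add, hP, hQ]
  | mul_X P i hP =>
    rw [hd] at hP
    have h1 : lineHom v y (MvPolynomial.X i) = C (y i) + C (v i : ℂ) * X := by simp [lineHom]
    have h2 : lineHom v y (MvPolynomial.C (v i)) = C (v i : ℂ) := by simp [lineHom]
    rw [dv_mul_X, map_mul, hd, derivative_mul, hP, map_add, map_mul, map_mul, h1, h2]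
    simp

theorem mc_line (v : σ → ℤ) (y : σ → ℂ) (P : (MvPolynomial σ ℤ)[X]) :
    mc dT (P.map (lineHom v y)) = (mc (dv v) P).map (lineHom v y) := by
  ext1 k
  rw [coeff_mc, coeff_map, coeff_map, coeff_mc, chain]

theorem WF_line (v : σ → ℤ) (y : σ → ℂ) (F H G : (MvPolynomial σ ℤ)[X]) :
    WF dT (F.map (lineHom v y)) (H.map (lineHom v y)) (G.map (lineHom v y)) =
      (WF (dv v) F H G).map (lineHom v y) := by
  unfold WF
  rw [mc_line, mc_line, Polynomial.derivative_map, Polynomial.derivative_map, Polynomial.map_mul, Polynomial.map_sub,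
    Polynomial.map_mul, Polynomial.map_mul]

/-- the line through the origin, over the integers -/
noncomputable def lam (v : σ → ℤ) : MvPolynomial σ ℤ →+* ℤ[X] :=
  MvPolynomial.eval₂Hom (Int.castRingHom ℤ[X]) (fun i => C (v i) * X)

omit [Fintype σ] in
theorem lam_line (v : σ → ℤ) :
    (mapRingHom (Int.castRingHom ℂ)).comp (lam v) = lineHom v (fun _ => 0) := by
  apply MvPolynomial.ringHom_ext
  · intro r
    simp [lam, lineHom]
  · intro i
    simp [lam, lineHom]

end

end NVAX

open NVAX in
theorem pr_NVA : StNVB → StNVA := by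
  intro hB σ _ F hF i0 n u hu ⟨t1, ht1⟩ H G hH hHG
  classical
  have hm1 : (F.map (MvPolynomial.eval t1)).Monic := hF.map _
  -- the separability polynomial
  have hsep1 : (F.map (((algebraMap ℚ ℂ).comp (Int.castRingHom ℚ)).comp
      (MvPolynomial.eval t1))).Separable := by
    have h1 : Irreducible ((F.map (MvPolynomial.eval t1)).map (Int.castRingHom ℚ)) :=
      (IsPrimitive.Int.irreducible_iff_irreducible_map_cast hm1.isPrimitive).mp ht1
    have h2 : (((F.map (MvPolynomial.eval t1)).map (Int.castRingHom ℚ)).map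
      (algebraMap ℚ ℂ)).Separable := h1.separable.map
    rwa [Polynomial.map_map, Polynomial.map_map] at h2
  obtain ⟨g, hg0, hg⟩ := exists_sepPoly F hF _ hsep1
  -- the characteristic polynomials
  let χ : AdjoinRoot F → (MvPolynomial σ ℤ)[X] := fun η =>
    (Algebra.leftMulMatrix (AdjoinRoot.powerBasisAux' hF) η).charpoly
  have hχm : ∀ η, (χ η).Monic := fun η => Matrix.charpoly_monic _
  have hχd : ∀ η, (χ η).natDegree = F.natDegree := fun η => by
    simp only [χ]
    rw [Matrix.charpoly_natDegree_eq_dim, Fintype.card_fin]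
  have hχr : ∀ η, aeval η (χ η) = 0 := by
    intro η
    apply Algebra.leftMulMatrix_injective (AdjoinRoot.powerBasisAux' hF)
    rw [← aeval_algHom_apply, map_zero]
    exact Matrix.aeval_self_charpoly _
  let D : ℕ := ∑ l : Fin n, ∑ k ∈ Finset.range (F.natDegree + 1),
    ((χ (u l)).coeff k).totalDegree
  have hD : ∀ (l : Fin n) (k : ℕ), ((χ (u l)).coeff k).totalDegree ≤ D := by
    intro l k
    by_cases hk : k ∈ Finset.range (F.natDegree + 1)
    · have h1 : ((χ (u l)).coeff k).totalDegree ≤ ∑ k ∈ Finset.range (F.natDegree + 1),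
          ((χ (u l)).coeff k).totalDegree :=
        Finset.single_le_sum (f := fun k => ((χ (u l)).coeff k).totalDegree)
          (fun _ _ => Nat.zero_le _) hk
      exact h1.trans (Finset.single_le_sum (f := fun l : Fin n =>
        ∑ k ∈ Finset.range (F.natDegree + 1), ((χ (u l)).coeff k).totalDegree)
          (fun _ _ => Nat.zero_le _) (Finset.mem_univ l))
    · rw [coeff_eq_zero_of_natDegree_lt (by
        rw [hχd]
        rw [Finset.mem_range] at hk
        omega), MvPolynomial.totalDegree_zero]
      exact Nat.zero_le _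
  obtain ⟨T, hT0, hT⟩ := hB n F.natDegree D
  let w : (Fin n → ℤ) → AdjoinRoot F := fun E => ((∏ i, u i ^ E i : (AdjoinRoot F)ˣ) : AdjoinRoot F)
  have hk : ∀ E : Fin n → ℤ, ∃ k : ℕ, E ∈ T → 0 < ((χ (w E)).coeff k).totalDegree := by
    intro E
    by_cases hE : E ∈ T
    · obtain ⟨k, hk⟩ := exists_coeff_totalDegree_pos F hF (w E) (hu E (hT0 E hE))
      exact ⟨k, fun _ => hk⟩
    · exact ⟨0, fun h => absurd h hE⟩
  choose k hk using hk
  obtain ⟨v, hv0, hv⟩ := exists_direction (insert g (T.image fun E => (χ (w E)).coeff (k E)))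
    (by
      intro c hc
      rw [Finset.mem_insert, Finset.mem_image] at hc
      rcases hc with rfl | ⟨E, hE, rfl⟩
      · exact hg0
      · intro h
        have h1 := hk E hE
        rw [h, MvPolynomial.totalDegree_zero] at h1
        exact lt_irrefl _ h1) i0
  have hvg := hv g (Finset.mem_insert_self _ _)
  set y : σ → ℂ := fun _ => 0 with hy
  -- the separability on the line
  obtain ⟨t0, ht0⟩ : ∃ t0 : ℂ, ((F.map (lineHom v y)).map (evC t0)).Separable := by
    have h1 : lineHom v y g ≠ 0 := by
      intro h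
      have h2 := coeff_lineHom v y g
      rw [h, coeff_zero] at h2
      exact hvg (by exact_mod_cast h2.symm)
    obtain ⟨t0, ht0⟩ : ∃ t0 : ℂ, (lineHom v y g).eval t0 ≠ 0 := by
      by_contra hcon
      push Not at hcon
      exact h1 (Polynomial.funext fun t => by rw [hcon t, eval_zero])
    refine ⟨t0, ?_⟩
    rw [Polynomial.map_map]
    exact hg _ ht0
  -- the relation
  by_contra hcon
  push Not at hcon
  obtain ⟨gg, hgg0, hgg⟩ := exists_rel (n := n) (d := F.natDegree)
    (Matrix.of fun l k => lam v (((WF (dv v) F (H l) (G l)) %ₘ F).coeff k)) (by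
      intro φ
      have h1 := congrArg (lam v) (hcon v (fun i => (φ i : ℕ)))
      rw [RingHom.map_det, map_zero] at h1
      rw [← h1]
      rfl)
  apply hgg0
  let h := adjMap (lineHom v y) F
  refine hT (F.map (lineHom v y)) (hF.map _) (hF.natDegree_map _) t0 ht0
      (fun l => Units.map (h : AdjoinRoot F →* AdjoinRoot (F.map (lineHom v y))) (u l)) ?_
      (fun l => (H l).map (lineHom v y))
      (fun l => (G l).map (lineHom v y)) ?_ ?_ (fun l => (χ (u l)).map (lineHom v y)) ?_ ?_ ?_ ?_
      gg ?_
  · intro E hE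
    have h1 : ((∏ i, Units.map (h : AdjoinRoot F →* AdjoinRoot (F.map (lineHom v y)))
        (u i) ^ E i : (AdjoinRoot (F.map (lineHom v y)))ˣ) : AdjoinRoot (F.map (lineHom v y))) =
        h (w E) := by
      have h2 : (∏ i, Units.map (h : AdjoinRoot F →* AdjoinRoot (F.map (lineHom v y)))
        (u i) ^ E i) = Units.map (h : AdjoinRoot F →* AdjoinRoot (F.map (lineHom v y)))
          (∏ i, u i ^ E i) := by
        rw [map_prod]
        simp only [map_zpow]
      rw [h2]
      rfl
    rw [h1]
    exact transcendental_line F hF (w E) (k E) _ rfl (hk E hE) v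
      (hv _ (Finset.mem_insert_of_mem (Finset.mem_image_of_mem _ hE))) y t0 ht0 h
      (fun G => adjMap_mk _ F G)
  · intro l
    rw [← adjMap_mk, hH]
    rfl
  · intro l
    have h1 := Polynomial.map_dvd (lineHom v y) (hHG l)
    rwa [Polynomial.map_sub, Polynomial.map_mul, Polynomial.map_one] at h1
  · intro l
    exact ((hχm _).map _).ne_zero
  · intro l
    exact natDegree_map_le.trans (hχd _).le
  · intro l k
    rw [coeff_map]
    exact (natDegree_lineHom_le v y _).trans (hD l k)
  · intro l t z hz
    rw [Polynomial.map_map, eval_map] at hz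
    rw [Polynomial.map_map, Polynomial.map_map, eval_map, eval_map]
    have h1 := congrArg (AdjoinRoot.lift ((evC t).comp (lineHom v y)) z hz) (hχr (u l))
    rw [map_zero, aeval_def, Polynomial.hom_eval₂, ← hH, AdjoinRoot.lift_mk] at h1
    have h2 : (AdjoinRoot.lift ((evC t).comp (lineHom v y)) z hz).comp
        (algebraMap (MvPolynomial σ ℤ) (AdjoinRoot F)) = (evC t).comp (lineHom v y) := by
      refine RingHom.ext fun f => ?_
      rw [RingHom.comp_apply, AdjoinRoot.algebraMap_eq]
      exact AdjoinRoot.lift_of _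
    rw [h2] at h1
    rw [← hH]
    exact h1
  · -- the divisibility
    have hdiv : F.map (lam v) ∣ ∑ l, C (gg l) * (WF (dv v) F (H l) (G l)).map (lam v) := by
      have h1 : ∑ l, C (gg l) * ((WF (dv v) F (H l) (G l)) %ₘ F).map (lam v) = 0 := by
        ext1 j
        rw [finsetSum_coeff, coeff_zero]
        by_cases hj : j < F.natDegree
        · have h2 := hgg ⟨j, hj⟩
          rw [← h2]
          refine Finset.sum_congr rfl fun l _ => ?_
          rw [coeff_C_mul, coeff_map]
          rfl
        · refine Finset.sum_eq_zero fun l _ => ?_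
          rw [coeff_C_mul, coeff_map]
          have h3 : ((WF (dv v) F (H l) (G l)) %ₘ F).coeff j = 0 := by
            by_cases hF1 : F = 1
            · rw [hF1, modByMonic_one, coeff_zero]
            · apply coeff_eq_zero_of_natDegree_lt
              have := natDegree_modByMonic_lt (WF (dv v) F (H l) (G l)) hF hF1
              omega
          rw [h3, map_zero, mul_zero]
      have h4 : ∑ l, C (gg l) * (WF (dv v) F (H l) (G l)).map (lam v) =
          ∑ l, C (gg l) * ((WF (dv v) F (H l) (G l)) %ₘ F).map (lam v) +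
          F.map (lam v) * ∑ l, C (gg l) * ((WF (dv v) F (H l) (G l)) /ₘ F).map (lam v) := by
        rw [Finset.mul_sum, ← Finset.sum_add_distrib]
        refine Finset.sum_congr rfl fun l _ => ?_
        conv_lhs => rw [← modByMonic_add_div (WF (dv v) F (H l) (G l)) F]
        rw [Polynomial.map_add, Polynomial.map_mul]
        ring
      rw [h4, h1, zero_add]
      exact dvd_mul_right _ _
    have h5 := Polynomial.map_dvd (mapRingHom (Int.castRingHom ℂ)) hdiv
    rw [Polynomial.map_map, lam_line, Polynomial.map_sum] at h5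
    have h6 : ∀ l, (C (gg l) * (WF (dv v) F (H l) (G l)).map (lam v)).map
        (mapRingHom (Int.castRingHom ℂ)) =
        C ((gg l).map (Int.castRingHom ℂ)) *
          WF dT (F.map (lineHom v y)) ((H l).map (lineHom v y)) ((G l).map (lineHom v y)) := by
      intro l
      rw [Polynomial.map_mul, Polynomial.map_map, lam_line, WF_line, map_C]
      rfl
    rw [Finset.sum_congr rfl fun l _ => h6 l] at h5
    exact h5

end Pool.Agent.Work.MP_59f3ad_nt.Tw
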