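import Mathlib
import Pool.Agent.Work.MP_59f3ad_nt.Bdx.B06
import Pool.Agent.Work.MP_59f3ad_nt.Bdx.B07
import Pool.Agent.Work.MP_59f3ad_nt.Tw.NVA
import Pool.Agent.Work.MP_59f3ad_nt.Tw.ClsG
import Pool.Agent.Work.MP_59f3ad_nt.Cod.Ord
import Pool.Agent.Work.MP_59f3ad_nt.Cod.Res
import Pool.Agent.Work.MP_59f3ad_nt.Cod.SZ

/-!
Assembly of the theorem on the exceptional twists for arbitrary families.
-/

namespace Pool.Agent.Work.MP_59f3ad_nt.Tw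

open Pool.Agent.Work.MP_59f3ad_nt.Cod

universe u

theorem allSeven : StSeven.{u} := by
  have hTwo1 : StTwo1.{u} := stTwo1 allFun (pr_Cnt1 pr_Kum pr_Cl1 pr_Un)
  have hNVA : StNVA := pr_NVA (pr_NVB pr_Lim)
  have hDig : StDigG.{u} := pr_DigG pr_MvT pr_Ord pr_Crit1.{u}
  have hCls : StClsG.{u} := pr_ClsG hDig pr_Pen
  have hPrime : StPrimeG.{u} := pr_PrimeG hNVA hCls (pr_BadE pr_Res pr_SZ) pr_CntV
  exact stSeven allThree hPrime pr_Mk1 pr_RootG hTwo1 pr_LL pr_LL1 pr_Tex pr_Tex1 pr_Red pr_Idx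
    pr_Hcl pr_Sig pr_Zp

end Pool.Agent.Work.MP_59f3ad_nt.Tw
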