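import Mathlib
import Pool.Agent.Work.MP_59f3ad_nt.Bdx.B04
import Pool.Agent.Work.MP_59f3ad_nt.Bdx.B01

/-!
From independent cocycles to sets of exceptional twists.
-/

open NumberField IsDedekindDomain

namespace Pool.Agent.Work.MP_59f3ad_nt.Tw

universe u

open CoreX in
theorem set_form (K : Type u) [Field K] [NumberField K] (p : ℕ) [Fact p.Prime]
    (hζ : ∀ ζ : K, ζ ^ p = 1 → ζ = 1) (S : Set (HeightOneSpectrum (𝓞 K))) (B : ℕ)
    (h : ∀ (n : ℕ) (r : Fin n → ℤ) (φ : Fin n → GK K → ℤ_[p]),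
      (∀ i, r i ≠ 1 ∧ ((p : ℤ) - 1) ∣ r i - 1 ∧ φ i ∈ ShaZ K p (r i) S) → Indep K p r φ →
      p ^ (∑ i, (1 + padicValInt p (r i - 1))) ≤ B)
    (R : Finset ℤ) (hR : ∀ r ∈ R, r ≠ 1 ∧ ((p : ℤ) - 1) ∣ r - 1 ∧ Sha1 K p r S ≠ ⊥) :
    p ^ (∑ r ∈ R, (1 + padicValInt p (r - 1))) ≤ B := by
  classical
  choose! ψ hψ1 hψ2 using fun (r : ℤ) (hr : r ∈ R) =>
    exists_mem_of_ne_bot K p r S (hR r hr).2.2
  set e : Fin R.card ≃ R := R.equivFin.symm with he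
  have h1 := h R.card (fun i => (e i : ℤ)) (fun i => ψ (e i))
    (fun i => ⟨(hR _ (e i).2).1, (hR _ (e i).2).2.1, hψ1 _ (e i).2⟩)
    (indep_of_injective pr_Sig pr_Zp K p hζ _ _ (fun i j hij => e.injective (Subtype.ext hij))
      (fun i => (hR _ (e i).2).2.1) _ (fun i => hψ2 _ (e i).2))
  rw [Equiv.sum_comp e (fun r : R => 1 + padicValInt p ((r : ℤ) - 1))] at h1
  rwa [← Finset.sum_coe_sort R (fun r : ℤ => 1 + padicValInt p (r - 1))]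

end Pool.Agent.Work.MP_59f3ad_nt.Tw
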