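import Mathlib
import Pool.Agent.Work.MP_59f3ad_nt.Cod.Id
import Pool.Agent.Work.MP_59f3ad_nt.Cod.Tay
import Pool.Agent.Work.MP_59f3ad_nt.Cod.QCH
import Pool.Agent.Work.MP_59f3ad_nt.Cod.Ord
import Pool.Agent.Work.MP_59f3ad_nt.Cod.QN
import Pool.Agent.Work.MP_59f3ad_nt.Cod.HZ
import Pool.Agent.Work.MP_59f3ad_nt.Cod.MDS
import Pool.Agent.Work.MP_59f3ad_nt.Cod.Js
import Pool.Agent.Work.MP_59f3ad_nt.Cod.Norm
import Pool.Agent.Work.MP_59f3ad_nt.Cod.Rolle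
import Pool.Agent.Work.MP_59f3ad_nt.Cod.Cau
import Pool.Agent.Work.MP_59f3ad_nt.Cod.Spec1
import Pool.Agent.Work.MP_59f3ad_nt.Cod.Spec0
import Pool.Agent.Work.MP_59f3ad_nt.Cod.Res
import Pool.Agent.Work.MP_59f3ad_nt.Cod.Sep
import Pool.Agent.Work.MP_59f3ad_nt.Cod.SZ
import Pool.Agent.Work.MP_59f3ad_nt.Cod.Chain
import Pool.Agent.Work.MP_59f3ad_nt.Cod.Fin
import Pool.Agent.Work.MP_59f3ad_nt.Cod.Ev
import Pool.Agent.Work.MP_59f3ad_nt.Cod.GC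
import Pool.Agent.Work.MP_59f3ad_nt.Cod.Tot
import Pool.Agent.Work.MP_59f3ad_nt.Cod.Sm
import Pool.Agent.Work.MP_59f3ad_nt.Bdx.B06
import Pool.Agent.Work.MP_59f3ad_nt.Bdx.B05

/-!
Assembly of the theorem on the exceptional twists for the explicit family.
-/

namespace Pool.Agent.Work.MP_59f3ad_nt.Tw

open Pool.Agent.Work.MP_59f3ad_nt.Cod

universe u

theorem allTwo1 : StTwo1.{u} := stTwo1 allFun (pr_Cnt1 pr_Kum pr_Cl1 pr_Un)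

theorem allSix : StSix.{u} := by
  have hId : StId := pr_Id
  have hJs : StJs := pr_Js
  have hQN : StQN := pr_QN pr_Tay pr_QCH hId
  have hDig : StDig1.{u} := pr_Dig1 hId pr_Ord hQN pr_Crit1.{u}
  have hFin : StFin := pr_Fin pr_Chain
  have hEv : StEv := pr_Ev hId hFin pr_HZ pr_MDS hJs
  have hCF : StClassFin1.{u} := pr_ClassFin1 hDig hEv
  have hS1 : StSpec1 := pr_Spec1 pr_Rolle pr_Cau
  have hS0 : StSpec0 := pr_Spec0 pr_Rolle pr_Cau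
  have hSep : StSep := pr_Sep pr_Res hS1 hS0
  exact stSix (pr_BoxP (pr_FamP (pr_FamC pr_Zer pr_Pin)))
    (pr_All hCF hJs pr_Norm hS1 hS0 hSep pr_SZ pr_GC pr_Tot pr_Sm) pr_DenK
    (pr_Prime1 hCF hJs pr_Norm hS1 hS0 hSep pr_SZ pr_Count) pr_Mk pr_RootG allTwo1 pr_LL pr_LL1
    pr_Tex pr_Tex1 pr_Red pr_Idx pr_Hcl pr_Sig pr_Zp

end Pool.Agent.Work.MP_59f3ad_nt.Tw
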